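import Pool.Agent.H41.CUBE.JStmts
import Pool.Agent.H4.CUBE.PSI
import Pool.Agent.H22.CUBE.RHB
import Pool.Agent.H46.CUBE.EPW
import Pool.Agent.H33.CUBE.FERM
import Pool.Agent.H10.CM.All

/-!
# Cube project (MP_47888e_al), block TAME, part J, module JT1

The functional `J2` of the pencil is compatible with Frobenius, in multiplied form.
-/

set_option autoImplicit false

open Finset MvPolynomial Pool.CM

namespace Pool.CUBE

namespace JT1m

/-! ### linear functionals and base change -/

section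
variable {n : ℕ} {K L : Type} [CommRing K] [CommRing L]

theorem mon_smul (a : Fin (n + 1) →₀ ℕ) (r : K) :
    (monomial a r : Poly n K) = r • monomial a 1 := by
  rw [smul_monomial, smul_eq_mul, mul_one]

theorem lin_map (Φ : K →+* L) (J : Poly n K →ₗ[K] K) (J' : Poly n L →ₗ[L] L)
    (h : ∀ a, J' (monomial a 1) = Φ (J (monomial a 1))) (g : Poly n K) :
    J' (map Φ g) = Φ (J g) := by
  induction g using MvPolynomial.induction_on' with
  | monomial a r =>
    rw [map_monomial, mon_smul a (Φ r), map_smul, h, mon_smul a r, map_smul, smul_eq_mul,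
      smul_eq_mul, map_mul]
  | add g1 g2 h1 h2 => rw [map_add, map_add, h1, h2, map_add, map_add]

theorem lin_Rel {Q : Poly n K} (J : Poly n K →ₗ[K] K) (hJ : ∀ k g, J (Dop Q k g) = 0)
    (g : Poly n K) (hg : g ∈ Rel Q) : J g = 0 := by
  have : Rel Q ≤ LinearMap.ker J := by
    rw [Rel, iSup_le_iff]
    rintro k _ ⟨y, rfl⟩
    exact hJ k y
  exact this hg

theorem map_smul'' (f : K →+* L) (c : K) (g : Poly n K) : map f (c • g) = f c • map f g := by
  rw [smul_eq_C_mul, map_mul, map_C, ← smul_eq_C_mul]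

end

section
variable {n : ℕ} {F K : Type} [CommRing F] [CommRing K]

/-- the row identity -/
theorem row (ε : F →+* K) (φ : F →+* F) (Φ : K →+* K) (hc : ∀ x, Φ (ε x) = ε (φ x))
    (J J' : Poly n K →ₗ[K] K) (h : ∀ a, J' (monomial a 1) = Φ (J (monomial a 1)))
    {P : Poly n F} {D : ℕ} {N : Type} [Fintype N] [DecidableEq N] {b : N → Poly n F}
    {l : N → ℕ} {co : Poly n F →ₗ[F] (N → F)} (hco : IsCo P D b l co)
    (hJ : ∀ k g, J (Dop (map ε P) k g) = 0)
    (hnd : ∀ a : Fin (n + 1) →₀ ℕ, ¬ D ∣ a.degree + (n + 1) → J (monomial a 1) = 0)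
    (g : Poly n F) :
    J' (map ε g) = ∑ c, ε (coF φ co g c) * Φ (J (map ε (b c))) := by
  classical
  induction g using MvPolynomial.induction_on' with
  | monomial a r =>
    rw [map_monomial, mon_smul a (ε r), map_smul, h, smul_eq_mul]
    have h1 : ∀ c, coF φ co (monomial a r) c = r * φ (co (monomial a 1) c) :=
      fun c => PSIm.coF_monomial φ co a r c
    simp only [h1, map_mul, mul_assoc]
    rw [← Finset.mul_sum]
    congr 1
    by_cases hD : D ∣ a.degree + (n + 1)
    · have h2 : (monomial a (1 : F) : Poly n F) - ∑ j, co (monomial a 1) j • b j ∈ Rel P := by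
        refine hco.span _ ?_
        intro c hc
        rw [coeff_monomial] at hc
        split_ifs at hc with hac
        · rw [← hac]; exact hD
        · exact absurd rfl hc
      have h3 := lin_Rel J hJ _ (PSIm.map_Rel ε _ _ h2)
      have h4 : J (map ε ((monomial a (1 : F) : Poly n F) - ∑ j, co (monomial a 1) j • b j)) =
          J (monomial a 1) - ∑ j, ε (co (monomial a 1) j) * J (map ε (b j)) := by
        rw [map_sub, map_sub, map_sum, map_sum, map_monomial, map_one]
        congr 1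
        refine Finset.sum_congr rfl fun j _ => ?_
        rw [map_smul'', map_smul, smul_eq_mul]
      rw [h4, sub_eq_zero] at h3
      rw [h3, map_sum]
      refine Finset.sum_congr rfl fun j _ => ?_
      rw [map_mul, hc]
    · rw [hnd a hD, map_zero]
      symm
      refine Finset.sum_eq_zero fun c _ => ?_
      rw [hco.nd a hD, Pi.zero_apply, map_zero, map_zero, zero_mul]
  | add g1 g2 h1 h2 =>
    rw [map_add, map_add, h1, h2, ← Finset.sum_add_distrib]
    refine Finset.sum_congr rfl fun c _ => ?_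
    rw [map_add, Pi.add_apply, map_add, add_mul]

end

/-! ### exchange of the variables and Frobenius -/

section
variable {X : Idx} {E : Type} [Field E]

theorem coeff_phiP (φ : E →+* E) (p : ℕ) (hp : 0 < p) (g : Polynomial E) (m : ℕ) :
    (phiP φ p g).coeff m = if p ∣ m then φ (g.coeff (m / p)) else 0 := by
  rw [phiP_apply, Polynomial.coeff_expand hp]
  split_ifs
  · rw [Polynomial.coeff_map]
  · rfl

theorem swp_phi (φ : E →+* E) (p : ℕ) (hp : 0 < p) (f : LaurentSeries (Polynomial E)) :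
    swp E (FUN.phiL (phiP φ p) p hp f) = FUN.phiL (FUN.phiL φ p hp) p hp (swp E f) := by
  have hp' : (p : ℤ) ≠ 0 := by exact_mod_cast hp.ne'
  ext j k
  rcases lt_or_ge j 0 with hj | hj
  · rw [swp_coeff_neg _ _ hj]
    by_cases hd : (p : ℤ) ∣ j
    · obtain ⟨j', rfl⟩ := hd
      rw [FUN.phiL_coeff_mul, swp_coeff_neg _ _ (by
        by_contra hcon
        rw [not_lt] at hcon
        have : (0 : ℤ) ≤ (p : ℤ) * j' := mul_nonneg (Int.natCast_nonneg _) hcon
        omega), map_zero]
    · rw [FUN.phiL_coeff_not _ _ _ _ _ hd]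
  · obtain ⟨m, rfl⟩ := Int.eq_ofNat_of_zero_le hj
    rw [swp_coeff]
    by_cases hk : (p : ℤ) ∣ k
    · obtain ⟨k', rfl⟩ := hk
      rw [FUN.phiL_coeff_mul, coeff_phiP φ p hp]
      by_cases hm : p ∣ m
      · obtain ⟨m', rfl⟩ := hm
        rw [if_pos (Dvd.intro _ rfl), Nat.mul_div_cancel_left _ hp, Nat.cast_mul,
          FUN.phiL_coeff_mul, FUN.phiL_coeff_mul, swp_coeff]
      · rw [if_neg hm, FUN.phiL_coeff_not, HahnSeries.coeff_zero]
        exact_mod_cast hm
    · rw [FUN.phiL_coeff_not _ _ _ _ _ hk, Polynomial.coeff_zero]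
      by_cases hm : p ∣ m
      · obtain ⟨m', rfl⟩ := hm
        rw [Nat.cast_mul, FUN.phiL_coeff_mul, FUN.phiL_coeff_not _ _ _ _ _ hk]
      · rw [FUN.phiL_coeff_not _ _ _ _ (m : ℤ) (by exact_mod_cast hm), HahnSeries.coeff_zero]

/-- polynomials with coefficients in a subring -/
def polS (O : Subring E) : Subring (Polynomial E) where
  carrier := {g | ∀ m, g.coeff m ∈ O}
  mul_mem' := by
    intro g h hg hh m
    rw [Polynomial.coeff_mul]
    exact O.sum_mem fun x _ => O.mul_mem (hg _) (hh _)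
  one_mem' := by
    intro m
    rw [Polynomial.coeff_one]
    split_ifs
    · exact O.one_mem
    · exact O.zero_mem
  add_mem' := by
    intro g h hg hh m
    rw [Polynomial.coeff_add]
    exact O.add_mem (hg _) (hh _)
  zero_mem' := by
    intro m
    rw [Polynomial.coeff_zero]
    exact O.zero_mem
  neg_mem' := by
    intro g hg m
    rw [Polynomial.coeff_neg]
    exact O.neg_mem (hg _)

theorem frob (A : PF X E) (hA : A.Ax) (i : X.I) (x : Polynomial E) (hx : x ∈ polS (A.O i)) :
    ∃ y ∈ polS (A.O i), phiP (A.phi i) (X.p i) x = x ^ X.p i + (X.p i : Polynomial E) * y := by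
  have hE : A.ext.Ax := All.ext X E A hA
  have h1 : algebraMap (Polynomial E) (RatFunc E) x ∈ A.ext.O i :=
    ⟨x, hx, 1, (A.primS i).one_mem, by rw [map_one, mul_one]⟩
  have h2 := hE.phi_frob i _ h1
  have h3 : A.ext.phi i (algebraMap (Polynomial E) (RatFunc E) x) =
      algebraMap (Polynomial E) (RatFunc E) (phiP (A.phi i) (X.p i) x) :=
    phiR_algebraMap _ _ (X.hp i).pos _
  rw [h3, ← map_pow, ← map_sub] at h2
  have h4 := ((All.gau X E A hA i).2.2.2.2 _ 1).1 h2
  choose y hy e using h4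
  let s := (phiP (A.phi i) (X.p i) x - x ^ X.p i).support
  refine ⟨∑ m ∈ s, Polynomial.monomial m (y m), ?_, ?_⟩
  · intro m
    rw [Polynomial.finsetSum_coeff]
    refine (A.O i).sum_mem fun k _ => ?_
    rw [Polynomial.coeff_monomial]
    split_ifs
    · exact hy _
    · exact (A.O i).zero_mem
  · have h5 : (X.p i : Polynomial E) * ∑ m ∈ s, Polynomial.monomial m (y m) =
        phiP (A.phi i) (X.p i) x - x ^ X.p i := by
      ext m
      have hc : (X.p i : Polynomial E) = Polynomial.C (X.p i : E) := by rw [map_natCast]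
      rw [hc, Polynomial.coeff_C_mul, Polynomial.finsetSum_coeff]
      simp only [Polynomial.coeff_monomial]
      rw [Finset.sum_ite_eq']
      split_ifs with hm
      · have := e m
        rw [pow_one] at this
        exact this.symm
      · rw [mul_zero]
        exact (Polynomial.notMem_support_iff.1 hm).symm
    rw [h5]
    ring

end

/-! ### homogeneity -/

section
variable {n : ℕ} {K : Type} [CommRing K]

theorem hom_C_mul {D : ℕ} {Q : Poly n K} (c : K) (hQ : Q.IsHomogeneous D) :
    (C c * Q).IsHomogeneous D := by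
  have := (isHomogeneous_C (Fin (n + 1)) c).mul hQ
  rwa [zero_add] at this

theorem hom_sum (D : ℕ) : (∑ i, X i ^ D : Poly n K).IsHomogeneous D :=
  IsHomogeneous.sum _ _ _ fun i _ => isHomogeneous_X_pow i D

theorem hom_Sg (D : ℕ) : (Sg n K ^ D).IsHomogeneous D := by
  have h : (Sg n K).IsHomogeneous 1 := IsHomogeneous.sum _ _ _ fun i _ => isHomogeneous_X _ i
  have := h.pow D
  rwa [one_mul] at this

end

section
variable {n : ℕ} {E : Type} [Field E]

theorem hom_P0s {D : ℕ} {N : Poly n E} (hN : N.IsHomogeneous D) :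
    (P0s D N).IsHomogeneous D :=
  (hom_C_mul _ (hom_Sg D)).sub (hN.map _)

theorem hom_ferm {D : ℕ} {N : Poly n E} (hN : N.IsHomogeneous D) :
    (ferm D N).IsHomogeneous D :=
  (hN.map _).add (hom_C_mul _ (hom_sum D))

theorem hom_X1p {D : ℕ} {N : Poly n E} (hN : N.IsHomogeneous D) :
    (X1p D N).IsHomogeneous D :=
  (hN.map _).sub (hom_C_mul _ (hom_sum D))

end


/-! ### the Frobenius of monomials -/

section
variable {X : Idx} {n : ℕ} {E : Type} [Field E] [CharZero E]

/-- the functional `J2^φ` -/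
noncomputable def J2p (A : PF X E) (i : X.I) (D : ℕ) (N : Poly n E) :
    Poly n (LaurentSeries (LaurentSeries E)) →ₗ[LaurentSeries (LaurentSeries E)]
      LaurentSeries (LaurentSeries E) :=
  linMon fun a => FUN.phiL (FUN.phiL (A.phi i) (X.p i) (X.hp i).pos) (X.p i) (X.hp i).pos
    (J2 D N (monomial a 1))

theorem J2p_mon (A : PF X E) (i : X.I) (D : ℕ) (N : Poly n E) (a : Fin (n + 1) →₀ ℕ) :
    J2p A i D N (monomial a 1) =
      FUN.phiL (FUN.phiL (A.phi i) (X.p i) (X.hp i).pos) (X.p i) (X.hp i).pos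
        (J2 D N (monomial a 1)) := by
  rw [J2p, linMon_monomial, one_smul]

theorem J2_mon (D : ℕ) (N : Poly n E) (a : Fin (n + 1) →₀ ℕ) :
    J2 D N (monomial a 1) = swp E (JL D (X1p D N) (monomial a 1)) := by
  rw [J2, JL, linMon_monomial, linMon_monomial, one_smul, one_smul]

theorem J2p_mon' (A : PF X E) (i : X.I) (D : ℕ) (N : Poly n E) (a : Fin (n + 1) →₀ ℕ) :
    J2p A i D N (monomial a 1) = swp E (JLp D (X1p D N) (phiP (A.phi i) (X.p i)) (X.p i)
      (X.hp i).pos (monomial a 1)) := by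
  rw [J2p_mon, J2_mon, ← swp_phi, JL, JLp, linMon_monomial, linMon_monomial, one_smul, one_smul]

theorem J2_nd (D : ℕ) (N : Poly n E) (a : Fin (n + 1) →₀ ℕ) (h : ¬ D ∣ a.degree + (n + 1)) :
    J2 D N (monomial a 1) = 0 := by
  rw [J2, linMon_monomial, one_smul]
  have h0 : jL D (X1p D N) a = 0 := by
    rw [jL]
    have : (PowerSeries.mk fun k => if k = 0 then (0 : Polynomial E) else
        aN D (X1p D N) (k - 1) (monomial a 1)) = 0 := by
      ext k : 1
      rw [PowerSeries.coeff_mk, map_zero]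
      split_ifs
      · rfl
      · rw [aN, linMon_monomial, one_smul, if_neg (fun hh => h hh.1)]
    rw [this, map_zero]
  rw [h0, map_zero]

/-- the error term of the monomial `z ^ a` -/
noncomputable def err (A : PF X E) (i : X.I) (D M : ℕ) (N : Poly n E)
    (g : Poly n (RatFunc (RatFunc E))) : LaurentSeries (LaurentSeries E) :=
  J2p A i D N (map (exTl E) (rhoE (X.p i) D M (A.ext.ext.phi i) (Psl D N) g)) -
    (X.p i : LaurentSeries (LaurentSeries E)) ^ n * J2 D N (map (exTl E) g)

omit [CharZero E] in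
theorem phi_exTl (A : PF X E) (hA : A.Ax) (i : X.I) (x : RatFunc (RatFunc E)) :
    FUN.phiL (FUN.phiL (A.phi i) (X.p i) (X.hp i).pos) (X.p i) (X.hp i).pos (exTl E x) =
      exTl E (A.ext.ext.phi i x) :=
  ((tgInf A hA).lau All.xph).φι i x

theorem uniq {K : Type} [CommRing K] {u v x y c : K} (h1 : u * v = 1) (hx : u * x = c)
    (hy : u * y = c) : x = y := by
  calc x = (u * v) * x := by rw [h1, one_mul]
    _ = v * (u * x) := by ring
    _ = v * (u * y) := by rw [hx, hy]
    _ = (u * v) * y := by ring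
    _ = y := by rw [h1, one_mul]

theorem map_mon1 {K L : Type} [CommRing K] [CommRing L] (f : K →+* L) (a : Fin (n + 1) →₀ ℕ) :
    map f (monomial a 1 : Poly n K) = monomial a 1 := by
  rw [map_monomial, RingHom.map_one]

omit [CharZero E] [Field E] in
theorem lift_abs {L1 F K : Type} [CommRing L1] [CommRing F] [CommRing K] (σ : L1 →+* K)
    (ε : F →+* K) (Φ1 : L1 →+* L1) (φ : F →+* F) (Φ : K →+* K)
    (h1 : ∀ x, σ (Φ1 x) = Φ (σ x)) (h2 : ∀ x, ε (φ x) = Φ (ε x)) (p D M : ℕ)
    (P1 : Poly n L1) (P : Poly n F) (hmap : map ε P = map σ P1) (c1 : L1) (c : F)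
    (hc1 : (p : L1) * c1 = 1) (hc : (p : F) * c = 1) (γ1 : ℕ → L1) (γ : ℕ → F) (u : ℕ → F)
    (hu : ∀ j, (j.factorial : F) * u j = 1) (hγ1 : ∀ j, (j.factorial : L1) * γ1 j = p ^ j)
    (hγ : ∀ j, (j.factorial : F) * γ j = p ^ j) (g : Poly n L1) (g' : Poly n F)
    (hgg : map σ g = map ε g') :
    map σ (rho0 p D M γ1 P1 (C c1 * (P1 ^ p - expand p (map Φ1 P1))) g) =
      map ε (rho0 p D M γ P (C c * (P ^ p - expand p (map φ P))) g') := by
  have hP' : map σ (map Φ1 P1) = map ε (map φ P) := by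
    rw [MvPolynomial.map_map, MvPolynomial.map_map]
    have e1 : σ.comp Φ1 = Φ.comp σ := RingHom.ext h1
    have e2 : ε.comp φ = Φ.comp ε := RingHom.ext h2
    rw [e1, e2, ← MvPolynomial.map_map, ← MvPolynomial.map_map, hmap]
  have hcc : σ c1 = ε c := by
    refine uniq (u := (p : K)) (v := ε c) (c := 1) ?_ ?_ ?_
    · have := congrArg ε hc
      rwa [RingHom.map_mul, map_natCast, RingHom.map_one] at this
    · have := congrArg σ hc1
      rwa [RingHom.map_mul, map_natCast, RingHom.map_one] at this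
    · have := congrArg ε hc
      rwa [RingHom.map_mul, map_natCast, RingHom.map_one] at this
  have hg : ∀ j, σ (γ1 j) = ε (γ j) := by
    intro j
    refine uniq (u := (j.factorial : K)) (v := ε (u j)) (c := (p : K) ^ j) ?_ ?_ ?_
    · have := congrArg ε (hu j)
      rwa [RingHom.map_mul, map_natCast, RingHom.map_one] at this
    · have := congrArg σ (hγ1 j)
      rwa [RingHom.map_mul, map_natCast, RingHom.map_pow, map_natCast] at this
    · have := congrArg ε (hγ j)
      rwa [RingHom.map_mul, map_natCast, RingHom.map_pow, map_natCast] at this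
  have hEE : map σ (C c1 * (P1 ^ p - expand p (map Φ1 P1))) =
      map ε (C c * (P ^ p - expand p (map φ P))) := by
    rw [RingHom.map_mul, RingHom.map_mul, map_C, map_C, hcc, RingHom.map_sub, RingHom.map_sub,
      RingHom.map_pow, RingHom.map_pow, map_expand, map_expand, hP', hmap]
  rw [RHB_proof.2.1, RHB_proof.2.1, hgg, hEE, hmap]
  congr 1
  congr 1
  funext j
  exact hg j

theorem exists_lift (A : PF X E) (i : X.I) (D M : ℕ) (hA : A.Ax) (N : Poly n E)
    (hmap : map (exTl E) (Psl D N) = map (swp E) (PL D (X1p D N))) :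
    ∃ (γ : ℕ → LaurentSeries (Polynomial E)) (EL : Poly n (LaurentSeries (Polynomial E))),
      (∀ j, (j.factorial : LaurentSeries (Polynomial E)) * γ j = (X.p i : ℕ) ^ j) ∧
      (PL D (X1p D N) ^ X.p i = expand (X.p i) (map (FUN.phiL (phiP (A.phi i) (X.p i)) (X.p i)
        (X.hp i).pos) (PL D (X1p D N))) +
        ((X.p i : ℕ) : Poly n (LaurentSeries (Polynomial E))) * EL) ∧
      ∀ g : Poly n (LaurentSeries (Polynomial E)), ∀ g' : Poly n (RatFunc (RatFunc E)),
        map (swp E) g = map (exTl E) g' →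
        map (swp E) (rho0 (X.p i) D M γ (PL D (X1p D N)) EL g) =
          map (exTl E) (rhoE (X.p i) D M (A.ext.ext.phi i) (Psl D N) g') := by
  have hp0 : (X.p i : E) ≠ 0 := by exact_mod_cast (X.hp i).ne_zero
  have hCC : ∀ x : E, ∀ y : E, (HahnSeries.C (Polynomial.C x) : LaurentSeries (Polynomial E)) *
      HahnSeries.C (Polynomial.C y) = HahnSeries.C (Polynomial.C (x * y)) := by
    intro x y
    rw [← RingHom.map_mul, ← RingHom.map_mul]
  have hnat : ∀ k : ℕ, (k : LaurentSeries (Polynomial E)) =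
      HahnSeries.C (Polynomial.C (k : E)) := by
    intro k
    rw [map_natCast, map_natCast]
  have hc1 : (X.p i : LaurentSeries (Polynomial E)) *
      HahnSeries.C (Polynomial.C ((X.p i : E)⁻¹)) = 1 := by
    rw [hnat, hCC, mul_inv_cancel₀ hp0, RingHom.map_one, RingHom.map_one]
  have hγ : ∀ j : ℕ, (j.factorial : LaurentSeries (Polynomial E)) *
      HahnSeries.C (Polynomial.C (gam E (X.p i) j)) =
      (X.p i : LaurentSeries (Polynomial E)) ^ j := by
    intro j
    rw [hnat, hCC, gam, mul_div_cancel₀ _ (by exact_mod_cast j.factorial_ne_zero), hnat,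
      ← RingHom.map_pow, ← RingHom.map_pow]
  have hF : ∀ k : ℕ, k ≠ 0 → (k : RatFunc (RatFunc E)) ≠ 0 := fun k hk => Nat.cast_ne_zero.2 hk
  refine ⟨fun j => HahnSeries.C (Polynomial.C (gam E (X.p i) j)),
    C (HahnSeries.C (Polynomial.C ((X.p i : E)⁻¹))) * (PL D (X1p D N) ^ X.p i -
      expand (X.p i) (map (FUN.phiL (phiP (A.phi i) (X.p i)) (X.p i) (X.hp i).pos)
        (PL D (X1p D N)))), hγ, ?_, ?_⟩
  · have h1 : ((X.p i : ℕ) : Poly n (LaurentSeries (Polynomial E))) =
        C (X.p i : LaurentSeries (Polynomial E)) := (map_natCast C _).symm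
    rw [h1, ← mul_assoc, ← C_mul, hc1, C_1, one_mul]
    ring
  · intro g g' hgg
    exact lift_abs (swp E) (exTl E) (FUN.phiL (phiP (A.phi i) (X.p i)) (X.p i) (X.hp i).pos)
      (A.ext.ext.phi i) (FUN.phiL (FUN.phiL (A.phi i) (X.p i) (X.hp i).pos) (X.p i)
      (X.hp i).pos) (fun x => swp_phi _ _ _ x) (fun x => (phi_exTl A hA i x).symm) (X.p i) D M
      (PL D (X1p D N)) (Psl D N) hmap _ ((X.p i : RatFunc (RatFunc E))⁻¹) hc1
      (mul_inv_cancel₀ (hF _ (X.hp i).ne_zero)) _ (gam (RatFunc (RatFunc E)) (X.p i))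
      (fun j => ((j.factorial : ℕ) : RatFunc (RatFunc E))⁻¹)
      (fun j => mul_inv_cancel₀ (hF _ j.factorial_ne_zero)) hγ
      (fun j => by rw [gam, mul_div_cancel₀ _ (hF _ j.factorial_ne_zero)]) g g' hgg

/-- the error terms of monomials of level `1 ≤ m ≤ n + 1` -/
theorem err_mem (hJF : JFStmt) (D M C1 : ℕ) (hD : 0 < D) (hM : 1 ≤ M) :
    ∃ p0 : ℕ, ∀ (A : PF X E) (hA : A.Ax) (N : Poly n E), N.IsHomogeneous D →
      map (exTl E) (Psl D N) = map (swp E) (PL D (X1p D N)) →
      ∀ i : X.I, p0 ≤ X.p i → (∀ a, coeff a N ∈ A.O i) →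
      ∀ (m : ℕ) (a : Fin (n + 1) →₀ ℕ), 1 ≤ m → m ≤ n + 1 → a.degree + (n + 1) = D * m →
        ∀ L : ℤ, L ≤ C1 * X.p i →
          err A i D M N (monomial a 1) ∈ ((tgInf A hA).lau All.xph).Z i M L := by
  obtain ⟨p0, hp0⟩ := hJF n D M C1 hD hM
  refine ⟨p0, fun A hA N hN hmap i hi hNi m a hm hm' ham L hL => ?_⟩
  obtain ⟨γ, EL, hγ, hEL, hlift⟩ := exists_lift A i D M hA N hmap
  have hX1 : ∀ b, coeff b (X1p D N) ∈ polS (A.O i) := by
    intro b
    rw [X1p, coeff_sub, coeff_C_mul, coeff_map, coeff_sum]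
    refine (polS (A.O i)).sub_mem ?_ ((polS (A.O i)).mul_mem ?_ ((polS (A.O i)).sum_mem ?_))
    · intro m
      rw [Polynomial.coeff_C]
      split_ifs
      · exact hNi b
      · exact (A.O i).zero_mem
    · intro m
      rw [Polynomial.coeff_X]
      split_ifs
      · exact (A.O i).one_mem
      · exact (A.O i).zero_mem
    · intro j _
      rw [coeff_X_pow]
      split_ifs
      · exact (polS (A.O i)).one_mem
      · exact (polS (A.O i)).zero_mem
  have key := hp0 (Polynomial E) (polS (A.O i)) (phiP (A.phi i) (X.p i)) (X.p i) (X.hp i) hi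
    (by
      intro m hm m'
      have h1 : (algebraMap ℚ (Polynomial E)) ((m : ℚ)⁻¹) = Polynomial.C ((m : E)⁻¹) := by
        rw [IsScalarTower.algebraMap_apply ℚ E (Polynomial E), map_inv₀, map_natCast]
        rfl
      rw [h1, Polynomial.coeff_C]
      split_ifs
      · exact hA.pol_O i 0 _ (hA.pol_inv i m hm)
      · exact (A.O i).zero_mem)
    (by
      intro x hx m
      rw [coeff_phiP _ _ (X.hp i).pos]
      split_ifs
      · exact hA.phi_O i _ (hx _)
      · exact (A.O i).zero_mem)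
    (frob A hA i) (X1p D N) (hom_X1p hN) hX1 γ hγ EL hEL m a hm hm' ham
  have herr : err A i D M N (monomial a 1) = swp E (JLp D (X1p D N) (phiP (A.phi i) (X.p i))
      (X.p i) (X.hp i).pos (rho0 (X.p i) D M γ (PL D (X1p D N)) EL (monomial a 1)) -
      (X.p i : LaurentSeries (Polynomial E)) ^ n * JL D (X1p D N) (monomial a 1)) := by
    rw [RingHom.map_sub, RingHom.map_mul, RingHom.map_pow, map_natCast, ← J2_mon,
      ← lin_map (swp E) _ (J2p A i D N) (J2p_mon' A i D N),
      hlift (monomial a 1) (monomial a 1) (by rw [map_mon1, map_mon1]), err, map_mon1]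
  rw [herr]
  intro k _ k' hk'
  obtain ⟨y, hy, e⟩ := key k' (hk'.trans hL)
  rcases lt_or_ge k 0 with hk | hk
  · rw [swp_coeff_neg _ _ hk]
    exact ⟨0, (A.O i).zero_mem, by rw [HahnSeries.coeff_zero, mul_zero]⟩
  · obtain ⟨j, rfl⟩ := Int.eq_ofNat_of_zero_le hk
    refine ⟨y.coeff j, hy j, ?_⟩
    rw [swp_coeff, e]
    have hc : ((X.p i : Polynomial E)) ^ M = Polynomial.C ((X.p i : E) ^ M) := by
      rw [map_pow, map_natCast]
    rw [hc, Polynomial.coeff_C_mul]

end

end JT1m

open JT1m in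
theorem JT1_proof (hJF : JFStmt) (hJT0 : JT0Stmt) (_hJR : JRStmt) (hCPX : CPXStmt) :
    JT1Stmt := by
  intro X E _ _ A hA hX n D hD N hN ι _ _ b l co hco hb M hM
  classical
  have hA1 : A.ext.Ax := All.ext X E A hA
  have hA2 : A.ext.ext.Ax := All.ext X (RatFunc E) A.ext hA1
  obtain ⟨hmap, hrel, -, -⟩ := hJT0 E n D hD N hN
  have hhom : (Psl D N).IsHomogeneous D := hom_ferm (hom_P0s hN)
  have hred : ∀ m ≤ n + 1, RedAt (Psl D N) D ⊤ m := fun m _ =>
    FERM_proof (RatFunc E) n D hD (P0s D N) (hom_P0s hN) m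
  obtain ⟨C0, hC0⟩ := hCPX X (RatFunc (RatFunc E)) A.ext.ext hA2 n D hD (Psl D N) hhom hred ι b l
    co hco M hM
  obtain ⟨de, hde⟩ := FUN.cdf hA2 (eP D n (Psl D N)).support
    (fun a => coeff a (eP D n (Psl D N)))
  let s : ℕ := (Finset.univ : Finset (ι × ι)).card
  refine ⟨s * C0 + de, fun C3 => ?_⟩
  obtain ⟨p0, hp0⟩ := err_mem (X := X) (n := n) (E := E) hJF D M (C3 + (s * C0 + de)) hD hM
  have hNi : X.Ev fun i => ∀ a ∈ N.support, coeff a N ∈ A.O i :=
    Idx.Ev.allFinset _ fun a ha => (hA.pf2 _ (mem_support_iff.1 ha)).mono fun i hi => hi.2.1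
  refine (hC0.and (hde.and ((Idx.Ev.large p0).and hNi))).mono ?_
  rintro i ⟨⟨hB, -⟩, ⟨he, hhe, heP⟩, hpi, hNi⟩
  have hNi' : ∀ a, coeff a N ∈ A.O i := by
    intro a
    by_cases ha : a ∈ N.support
    · exact hNi a ha
    · rw [notMem_support_iff.1 ha]
      exact (A.O i).zero_mem
  have hp1 : 1 ≤ X.p i := (X.hp i).pos
  obtain ⟨h1, hh1, hh1P⟩ := FUN.cdt hA2 i (C0 * X.p i) (Finset.univ : Finset (ι × ι))
    (fun x => matB (X.p i) D M (A.ext.ext.phi i) (Psl D N) b co x.1 x.2)
    (fun x _ => hB x.1 x.2)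
  have hle : s * (C0 * X.p i) + de ≤ (s * C0 + de) * X.p i := by
    have : de ≤ de * X.p i := Nat.le_mul_of_pos_right _ hp1
    calc s * (C0 * X.p i) + de ≤ s * (C0 * X.p i) + de * X.p i := by omega
      _ = (s * C0 + de) * X.p i := by ring
  refine ⟨h1 * he, hA2.den_mono i _ _ hle (hA2.den_mul i _ _ _ _ hh1 hhe), ?_, ?_⟩
  · intro u v
    have e1 : h1 * he * (matB (X.p i) D M (A.ext.ext.phi i) (Psl D N) b co).transpose u v =
        (h1 * matB (X.p i) D M (A.ext.ext.phi i) (Psl D N) b co v u) * he := by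
      rw [Matrix.transpose_apply]
      ring
    rw [e1]
    exact hA2.pol_mono i _ _ hle (hA2.pol_mul i _ _ _ _ (hh1P (v, u) (Finset.mem_univ _))
      (hA2.den_pol i _ _ hhe))
  · -- the general element
    have gen : ∀ (g : Poly n (RatFunc (RatFunc E))) (m : ℕ), Wt (D * m) g → 1 ≤ m → m ≤ n + 1 →
        (∀ a ∈ g.support, he * coeff a g ∈ A.ext.ext.pol i de) →
        ((tgInf A hA).lau hX).ι (h1 * he) * err A i D M N g ∈
          ((tgInf A hA).lau hX).Z i M ((C3 * X.p i : ℕ) : ℤ) := by
      intro g m hg hm hm' hc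
      have e2 : err A i D M N g = ∑ a ∈ g.support, exTl E (coeff a g) *
          err A i D M N (monomial a 1) := by
        have e3 : g = ∑ a ∈ g.support, coeff a g • (monomial a 1 : Poly n _) := by
          conv_lhs => rw [g.as_sum]
          exact Finset.sum_congr rfl fun a _ => mon_smul a _
        have e4 : ∀ (s : Finset (Fin (n + 1) →₀ ℕ)) (c : (Fin (n + 1) →₀ ℕ) →
            RatFunc (RatFunc E)), err A i D M N (∑ a ∈ s, c a • (monomial a 1 : Poly n _)) =
            ∑ a ∈ s, exTl E (c a) * err A i D M N (monomial a 1) := by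
          intro s c
          simp only [err, map_sum, map_smul, map_smul'', smul_eq_mul, mul_sub]
          rw [Finset.sum_sub_distrib, Finset.mul_sum]
          congr 1
          refine Finset.sum_congr rfl fun a _ => ?_
          ring
        conv_lhs => rw [e3]
        exact e4 _ _
      rw [e2, Finset.mul_sum]
      refine AddSubgroup.sum_mem _ fun a ha => ?_
      have e5 : ((tgInf A hA).lau hX).ι (h1 * he) * (exTl E (coeff a g) *
          err A i D M N (monomial a 1)) =
          ((tgInf A hA).lau hX).ι (h1 * (he * coeff a g)) * err A i D M N (monomial a 1) := by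
        have : exTl E (coeff a g) = ((tgInf A hA).lau hX).ι (coeff a g) := rfl
        rw [this, ← mul_assoc, ← map_mul, mul_assoc]
      rw [e5]
      have hwt := hg a (mem_support_iff.1 ha)
      have h5 := hp0 A hA N hN hmap i hpi.le hNi' m a hm hm' hwt
        (((C3 * X.p i : ℕ) : ℤ) + ((s * (C0 * X.p i) + de : ℕ) : ℤ)) (by
          have : ((C3 * X.p i : ℕ) : ℤ) + ((s * (C0 * X.p i) + de : ℕ) : ℤ) ≤
              ((C3 * X.p i + (s * C0 + de) * X.p i : ℕ) : ℤ) := by
            rw [← Nat.cast_add]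
            exact_mod_cast Nat.add_le_add_left hle _
          refine this.trans (le_of_eq ?_)
          push_cast
          ring)
      have h6 := ((tgInf A hA).lau hX).pol i M _ (s * (C0 * X.p i) + de) _ _
        (hA2.pol_mul i _ _ _ _ (hA2.den_pol i _ _ hh1) (hc a ha)) h5
      rw [add_sub_cancel_right] at h6
      exact h6
    intro u
    have hrow := row (exTl E) (A.ext.ext.phi i)
      (FUN.phiL (FUN.phiL (A.phi i) (X.p i) (X.hp i).pos) (X.p i) (X.hp i).pos)
      (phi_exTl A hA i) (J2 D N) (J2p A i D N) (J2p_mon A i D N) hco hrel (J2_nd D N)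
      (rhoE (X.p i) D M (A.ext.ext.phi i) (Psl D N) (b u))
    have e6 : ∑ c, ((tgInf A hA).lau hX).φ i (J2 D N (map (exTl E) (b c))) *
        ((tgInf A hA).lau hX).ι ((matB (X.p i) D M (A.ext.ext.phi i) (Psl D N) b co).transpose
          u c) - (X.p i : LaurentSeries (LaurentSeries E)) ^ n * J2 D N (map (exTl E) (b u)) =
        err A i D M N (b u) := by
      rw [err, hrow]
      congr 1
      refine Finset.sum_congr rfl fun c _ => ?_
      rw [mul_comm]
      rfl
    change ((tgInf A hA).lau hX).ι (h1 * he) * (∑ c, ((tgInf A hA).lau hX).φ i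
      (J2 D N (map (exTl E) (b c))) * ((tgInf A hA).lau hX).ι ((matB (X.p i) D M
        (A.ext.ext.phi i) (Psl D N) b co).transpose u c) -
      (X.p i : LaurentSeries (LaurentSeries E)) ^ n * J2 D N (map (exTl E) (b u))) ∈ _
    rw [e6]
    rcases hb u with hu | ⟨a, hu⟩
    · rw [hu]
      exact gen _ (n + 1) (EPW_proof _ n D hD (Psl D N) hhom).1 (by omega) le_rfl heP
    · have hwt := hco.lb u
      have hl := hco.l1 u
      refine gen _ (l u) hwt hl.1 hl.2 ?_
      intro c hc
      rw [hu] at hc ⊢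
      have : coeff c (monomial a (1 : RatFunc (RatFunc E))) = 1 := by
        rw [mem_support_iff, coeff_monomial] at hc
        rw [coeff_monomial]
        by_contra hcon
        split_ifs at hc hcon <;> simp_all
      rw [this, mul_one]
      exact hA2.den_pol i _ _ hhe

end Pool.CUBE
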